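import Pool.Agent.U739.IS.ZMain2

set_option autoImplicit false

/-! # The motivic monodromy conjecture for the ideals `(F ^ a)`, where `F` is a form with isolated
weighted homogeneous singularities in the projective space

Let `F` be a form of degree `d > 0` in `m + 1` variables, such that the hypersurface `F = 0` in `P^m` has
only isolated weighted homogeneous singularities, and let `I = (F ^ a)`, `a ≥ 1`. The theorem says that
the poles of the motivic zeta function of `I` at the origin are roots of the Bernstein-Sato
polynomial of the ideal `I` (Budur, Mustata, Saito). By the theorem of Malgrange and Kashiwara, and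
as the ideal is homogeneous, `exp(2 π i s₀)` is then an eigenvalue of the monodromy at points
arbitrarily close to the origin, and by a lemma of Denef also a zero or a pole of the monodromy
zeta function at some point arbitrarily close to the origin. (For a principal ideal the monodromy
zeta function at a point is the classical one.)

The candidate pole `-(m+1)/(a d)` is a root, if there is no linear vector field `v` with `v(F) = 0` and
nonzero trace; the proof is in the files `Core`, `Gl`, `Loc` of `Pool.Agent.U739.IS`. If there is one,
then it is not a pole, because `F` then has a second grading, see `Exc`. -/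

namespace Pool.Agent.Results.MP_4e5fcd_ag.IsolatedCones

open MvPolynomial Pool.Agent.U739.IS Pool.Agent.W574.MO Pool.Agent.W574.SM

/-- **The motivic monodromy conjecture (strong form) for the ideals `I = (F ^ a)`, `a ≥ 1`, where `F` is a
form of degree `d > 0` in `m + 1` variables such that `F = 0` has only isolated weighted homogeneous
singularities in `P^m`** (in coordinates such that the section by `x_0 = 0` is smooth, `IsoForm F d`). `M`
is a commutative ring with a unit `L`, for example `M = K₀(Var_ℂ)[1/L]`. Let `b` be a polynomial which
satisfies a functional equation of the ideal `I` (in particular the Bernstein-Sato polynomial of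
`I`), let `Z` be the motivic zeta function of `I` at the origin (`MotIso`), and let `R` be the ring
`M[T][(1 - L^(-ν) T^N)⁻¹]`, where the pairs `N, ν ≥ 1` are such that `-ν/N` is a root of `b`. Then
`(L ^ k - 1) Z ∈ R` for some `k ≥ 1`, and `Z ∈ R`, if no `L ^ k - 1` is a zero divisor in `M`, or if there is
no linear vector field `v` with `v(F) = 0` and nonzero trace. -/
theorem result {M : Type} [CommRing M] (L : Mˣ) {m : ℕ} (F : MvPolynomial (Fin (m + 1)) ℂ)
    (d a : ℕ) (hF : IsoForm F d) (ha : 1 ≤ a) (b : Polynomial ℂ)
    (hb : IsFunctionalEq (fun _ : Unit => F ^ a) b) (Z : PowerSeries M)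
    (hZ : MotIso L F a Z) :
    (∃ k : ℕ, 1 ≤ k ∧ PowerSeries.C ((L : M) ^ k - 1) * Z ∈ DenRing L (RootPair b)) ∧
    ((NoTrace F ∨ ∀ k : ℕ, 1 ≤ k → (L : M) ^ k - 1 ∈ nonZeroDivisors M) →
      Z ∈ DenRing L (RootPair b)) :=
  mot_main hF ha b (Pool.Agent.U184.isB_of_unit _ b hb) hZ

end Pool.Agent.Results.MP_4e5fcd_ag.IsolatedCones
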