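import Pool.Agent.U397.TM.Ide
import Pool.Agent.U397.TM.PkgRO
import Pool.Agent.U397.TM.PkgMP
import Pool.Agent.U397.TM.PkgME

set_option autoImplicit false

/-! # The motivic monodromy conjecture for the ideals of the entries of products of generic matrices

Let `n_0 ≤ n_1 ≤ ⋯` be positive integers, `A_i`, `i < L`, generic matrices of the sizes
`n_i × n_{i+1}` (all entries are different variables, `Var n L`), and for `t < T` let `ℓ_t < L` and
`I_t` the ideal of the entries of `A_0 A_1 ⋯ A_{ℓ_t}` (`gens`). Let `I = ∏ t, I_t`, generated by the
products of one entry for each `t` (`prodG`, with integral coefficients). For `T = 1` this is the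
ideal of the variety of the sequences of matrices (quiver representations of type `A`) with
`A_0 A_1 ⋯ A_{ℓ} = 0`, which is reducible in general, with components of different codimensions.

The local motivic zeta function of `I` at the origin is `𝕃 ^ (-m) ∑_{N ≥ 1} [𝒳_N] 𝕃 ^ (-m N) T ^ N`
(`zetaJ`), `m` the number of the variables, `𝒳_N` the set of the `N`-jets with origin `0` on which `I`
has the order `N`; by the change of variables formula this is the function defined with a
principalization. It is defined in the Grothendieck ring of complex varieties, localised at `𝕃`. No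
principalization is used (`Tw3`, `t_ST3`, `t_ME`): the state of the recursion is given by the levels
of the rows (the row `ρ` of the first factor which does not yet have a unit) and the columns which
are left; only the entries of the rows at their levels (heads) are divided by `t`; if a head is a
unit, a shear which depends also on entries of the next matrix moves its row to the next level. This
gives the denominators `1 - 𝕃 ^ (-ν(c)) T ^ N(c)`, where `c` runs over the chains
`n_0 = c_0 ≥ c_1 ≥ ⋯ ≥ c_L` of possible ranks `c_{i+1}` of `A_0 ⋯ A_i` with some `c_{ℓ_t+1} = 0`,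
`ν(c) = ∑_i (c_i - c_{i+1}) (n_{i+1} - c_{i+1})` is the codimension of the stratum and `N(c)` the number
of the `t` with `c_{ℓ_t+1} = 0`.

The proof for the roots: near a general point of the stratum of `c` the ideal `I_t` is the ideal of
the stratum, which is smooth, or the unit ideal (`t_RO`), and a functional equation of `I` is compared
along the blow-up of the stratum. -/

namespace Pool.Agent.Results.MP_4e5fcd_ag.MatrixProductIdeals

open MvPolynomial Pool.Agent.W574.LM Pool.Agent.TH192.MT Pool.Agent.W428.MOT Pool.Agent.U397.TM

/-- **The motivic monodromy conjecture at the origin for `I = ∏ t, I_t`**, `I_t` the ideal of the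
entries of the product `A_0 ⋯ A_{ℓ t}` of generic matrices. The finite set `idePairs n L ℓ` of the pairs
`(-ν(c), N(c))` has the two properties: `-ν(c) / N(c)` is a root of every `b` for which
`H b(∑ s_j) ∏ f_j ^ s_j` satisfies a functional equation of Budur, Mustata and Saito (`IsLocEq`) with
some `H`, `H(0) ≠ 0`, the `f_j` being the products of one entry for each `t`, in particular of the
local Bernstein-Sato polynomial of `I` at the origin (by the theorem of Budur, Mustata and Saito,
`exp(-2 π i ν(c) / N(c))` is an eigenvalue of the Verdier monodromy of `I` at a point over each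
neighbourhood of the origin); and the local motivic zeta function of `I` at the origin lies in the
ring generated by `T` and the `1 / (1 - 𝕃 ^ (-ν(c)) T ^ N(c))`. -/
theorem result (n : ℕ → ℕ) (L T : ℕ) (ℓ : Fin T → ℕ) (h0 : 0 < n 0) (hn : Monotone n)
    (hℓ : ∀ t, ℓ t < L) :
    (∀ q ∈ idePairs n L ℓ, q.1 < 0 ∧ 0 < q.2 ∧
      ∀ (b : Polynomial ℂ) (H : MvPolynomial (Var n L) ℂ), constantCoeff H ≠ 0 →
        IsLocEq H (fun j => map (Int.castRingHom ℂ) (prodG n L ℓ j)) b →
          b.eval ((q.1 : ℂ) / q.2) = 0) ∧
    zetaJ (fun j => map (Int.castRingHom ℂ) (prodG n L ℓ j)) ∈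
      ratRing ℂ (idePairs n L ℓ : Set (ℤ × ℤ)) :=
  t_IDE t_RO (t_ME t_MP) n L T ℓ h0 hn hℓ

end Pool.Agent.Results.MP_4e5fcd_ag.MatrixProductIdeals
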